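import Pool.Agent.V11287.DC.Crit
import Pool.Agent.W12.TQ.Iter
import Pool.Agent.W347.TQ.Ode
import Pool.Agent.W52.TQ.Univ
import Pool.Agent.W775.TQ.Dtp
import Pool.Agent.W503.TQ.Est1
import Pool.Agent.W790.TQ.Est2
import Pool.Agent.W52.TQ.Loc
import Pool.Agent.W503.TQ.Uni

/-!
# Singularities and the compression of the flow in the direction of its time derivative

A solution of the Navier-Stokes equations with zero boundary values can become singular only if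
the flow compresses strongly in the one direction `∂ₜu(t,x)`: one-sided conditions of
Prodi-Serrin type, with rates, on the scalar `-w·(∇u)w/|w|²`, `w = ∂ₜu`.
-/

set_option autoImplicit false

open MeasureTheory Set
open scoped InnerProductSpace ENNReal ContDiff

namespace Pool.Agent.Results.MP_fd8964_an.DirectionalCompression

open H772R2.NS.Pub Pool.Agent.W795.TQ
open Pool.Agent.V11287.DC (outer compression)

/-- The Prodi-Serrin exponent `r = 1/(1 - 3/(2q))`, so that `2/r + 3/q = 2`. -/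
noncomputable def gradExp (q : ℝ≥0∞) : ℝ := 1 / (1 - (3 / (2 * q)).toReal)

/-- There are absolute constants `c(q) > 0` for `3/2 ≤ q ≤ ∞` with the following property. Let `u`
be a Leray-Hopf solution on `[0,T]` with admissible data in a bounded open set `Ω`. Then either `u`
is a strong solution on `[0,T]`, or there are a first singular time `τ ∈ (0,T]` and `u' = ∂ₜu`,
`G' = ∇∂ₜu`, `G1 = ∇u` such that `u` is a strong solution on `[0,t]` for every `t < τ`, and for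
every `s ∈ [0,τ)`, where `γ(t,x) = max(0, -u'·(∇u)u') / |u'|²` is the rate at which the flow
compresses in the direction of `u' = ∂ₜu(t,x)`:
1. (form bounds) for `δ > 0` there is `M` such that, whenever `λ ≥ 0` is locally integrable on
   `[s,τ)` and `-∫ u'·(∇u)u' ≤ (1-δ) ν ‖∇u'‖² + λ(t) ‖u'‖²` for almost every `t ∈ (s,τ)`, one has
   `∫_s^t λ ≥ (3/4) log (1/(τ-t)) - M` for `t < τ` arbitrarily close to `τ`;
2. (truncation) there is `M` such that, whenever `K ≥ 0` is locally integrable on `[s,τ)` and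
   `max(0, γ(t) - K(t))` has at most the norm `c(3/2) ν` in `L^{3/2}(Ω)` for almost every
   `t ∈ (s,τ)`, one has `∫_s^t K ≥ (3/4) log (1/(τ-t)) - M` for `t < τ` arbitrarily close to `τ`;
3. (Prodi-Serrin) for `3/2 < q ≤ ∞`, `r = 1/(1-3/(2q))` there is `M` such that, whenever `B ≥ 0`,
   `B^r` is locally integrable on `[s,τ)` and `γ(t)` has at most the norm `B(t)` in `L^q(Ω)` for
   almost every `t ∈ (s,τ)`, one has `∫_s^t B^r ≥ c(q) ν^(r-1) log (1/(τ-t)) - M` for `t < τ`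
   arbitrarily close to `τ`;
4. for `0 ≤ a < 3/4` it is not true that `max(0, γ(t) - a/(τ-t))` has at most the norm `c(3/2) ν`
   in `L^{3/2}(Ω)` for almost every `t ∈ (s,τ)`.
Moreover `c(∞) = 3/4`. -/
theorem result : ∃ c : ℝ≥0∞ → ℝ, (∀ q, 3 / 2 ≤ q → 0 < c q) ∧ c ⊤ = 3 / 4 ∧
    ∀ (Ω : Set R3), IsOpen Ω → Bornology.IsBounded Ω → ∀ (ν T : ℝ), 0 < ν → 0 < T →
    ∀ (F F' : ℝ → L2 Ω Mat), IsH1 T F F' →
    ∀ (u : ℝ → L2 Ω R3) (G : ℝ → L2 Ω Mat), IsLerayHopf Ω ν T F u G →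
    ∀ z0 : L2 Ω Mat, (u 0, z0) ∈ H1graph Ω →
    (∃ g : L2 Ω R3, ∀ φ, IsTest Ω φ → rhs ν (u 0) z0 (F 0) φ = ∫ x in Ω, ⟪g.fn x, φ x⟫_ℝ) →
    (∃ u' G1 G', IsStrong Ω ν T F u u' G1 G') ∨
    ∃ τ ∈ Ioc 0 T, ∃ (u' : ℝ → L2 Ω R3) (G1 G' : ℝ → L2 Ω Mat),
      (∀ t ∈ Ioo 0 τ, IsStrong Ω ν t F u u' G1 G') ∧
      ∀ s ∈ Ico 0 τ,
        (∀ δ : ℝ, 0 < δ → ∃ M : ℝ, ∀ lam : ℝ → ℝ, (∀ t, 0 ≤ lam t) →
          (∀ t ∈ Ioo s τ, IntegrableOn lam (Ioc s t)) →
          (∀ᵐ t ∂(volume.restrict (Ioo s τ)),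
            -(∫ x in Ω, ⟪outer ((u' t).fn x), (G1 t).fn x⟫_ℝ)
              ≤ (1 - δ) * ν * ‖G' t‖ ^ 2 + lam t * ‖u' t‖ ^ 2) →
          ∀ t0 < τ, ∃ t ∈ Ioo t0 τ, s < t ∧
            3 / 4 * Real.log (1 / (τ - t)) - M ≤ ∫ r in s..t, lam r) ∧
        (∃ M : ℝ, ∀ K : ℝ → ℝ, (∀ t, 0 ≤ K t) →
          (∀ t ∈ Ioo s τ, IntegrableOn K (Ioc s t)) →
          (∀ᵐ t ∂(volume.restrict (Ioo s τ)),
            eLpNorm (fun x => max 0 (compression (G1 t) (u' t) x - K t)) (3 / 2)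
              (volume.restrict Ω) ≤ ENNReal.ofReal (c (3 / 2) * ν)) →
          ∀ t0 < τ, ∃ t ∈ Ioo t0 τ, s < t ∧
            3 / 4 * Real.log (1 / (τ - t)) - M ≤ ∫ r in s..t, K r) ∧
        (∀ q : ℝ≥0∞, 3 / 2 < q → ∃ M : ℝ, ∀ B : ℝ → ℝ, (∀ t, 0 ≤ B t) →
          (∀ t ∈ Ioo s τ, IntegrableOn (fun r => B r ^ gradExp q) (Ioc s t)) →
          (∀ᵐ t ∂(volume.restrict (Ioo s τ)),
            eLpNorm (compression (G1 t) (u' t)) q (volume.restrict Ω)
              ≤ ENNReal.ofReal (B t)) →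
          ∀ t0 < τ, ∃ t ∈ Ioo t0 τ, s < t ∧
            c q * ν ^ (gradExp q - 1) * Real.log (1 / (τ - t)) - M
              ≤ ∫ r in s..t, B r ^ gradExp q) ∧
        ∀ a : ℝ, 0 ≤ a → a < 3 / 4 → ¬ ∀ᵐ t ∂(volume.restrict (Ioo s τ)),
          eLpNorm (fun x => max 0 (compression (G1 t) (u' t) x - a / (τ - t))) (3 / 2)
            (volume.restrict Ω) ≤ ENNReal.ofReal (c (3 / 2) * ν) := by
  obtain ⟨κ, hκ, hmain⟩ := Pool.Agent.V1183.RA.alt_mid Pool.Agent.W12.TQ.proof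
    Pool.Agent.W347.TQ.proof_ode
    Pool.Agent.W775.TQ.proof_dtp Pool.Agent.W503.TQ.proof_est1 Pool.Agent.W790.TQ.proof_est2
    Pool.Agent.W52.TQ.proof_loc Pool.Agent.W503.TQ.proof_uni Pool.Agent.W52.TQ.proof_univ
  have hCS : (0 : ℝ) ≤ (H772R2.NS.CS : ℝ) := NNReal.coe_nonneg _
  have htop : (⊤ : ℝ≥0∞) ≠ 3 / 2 := by
    refine (ENNReal.div_lt_top (by norm_num) (by norm_num)).ne'
  refine ⟨fun q => if q = 3 / 2 then 1 / (2 * ((H772R2.NS.CS : ℝ) + 1) ^ 2) else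
    3 / 4 / (((((H772R2.NS.CS : ℝ) + 1) ^ (3 / (2 * q)).toReal) ^ 2)
      ^ (1 / (1 - (3 / (2 * q)).toReal)) * 2 ^ (1 / (1 - (3 / (2 * q)).toReal) - 1)), ?_, ?_, ?_⟩
  · intro q hq
    simp only
    split_ifs
    · positivity
    · positivity
  · simp only [if_neg htop]
    have : (3 / (2 * (⊤ : ℝ≥0∞))).toReal = 0 := by
      rw [ENNReal.mul_top (by norm_num), ENNReal.div_top, ENNReal.toReal_zero]
    rw [this]
    norm_num
  intro Ω hΩ hb ν T hν hT F F' hF u G L z0 h0 hg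
  obtain ⟨g, hg'⟩ := hg
  rcases hmain Ω hΩ hb ν T hν hT F F' hF.memLp hF.prim u G L.meas
    (by
      filter_upwards [L.grad] with t ht
      exact mem_pub.mpr ht) L.gradL2
    (fun φ hφ t ht => L.eqn φ ((isTest_iff φ).mpr hφ) t ht) L.energy z0 (mem_pub.mpr h0)
    ⟨g, fun φ hφ => hg' φ ((isTest_iff φ).mpr hφ)⟩ with h1 | ⟨τ, hτ, u1, y, y1, hS, hrate⟩
  · exact Or.inl h1
  refine Or.inr ⟨τ, hτ, u1, y, y1, fun t ht => strong_of_str hΩ ht.1 (hS t ht) (fun _ _ => rfl), ?_⟩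
  intro s hs
  obtain ⟨C, Fr⟩ := H772R2.NSR.exists_frame hΩ hb
  have hm := Pool.Agent.V1183.RA.ms (Ω := Ω) hΩ
  have hκν : 0 < κ * ν ^ (5 / 4 : ℝ) := by positivity
  have hFH : FH T F F' := ⟨hF.memLp, hF.prim⟩
  have hcmp : ∀ t, compression (Ω := Ω) (y t) (u1 t) = Pool.Agent.V11287.DC.cmp (y t) (u1 t) :=
    fun t => funext fun x => Pool.Agent.V11287.DC.compression_eq (y t) (u1 t) x
  refine ⟨fun δ hδ => ?_, ?_, fun q hq => ?_, fun a ha0 ha => ?_⟩
  · obtain ⟨M, hM⟩ :=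
      Pool.Agent.V11287.DC.low_form hm Fr hν hτ.2 hFH hS hκν hrate hs hδ
    refine ⟨M, fun lam h0 hi hc => hM lam h0 hi ?_⟩
    filter_upwards [hc] with t ht
    have e : ∀ x : R3, outer ((L2.fn (Ω := Ω) (E := R3) (u1 t)) x)
        = H772R2.NS.tens ((L2.fn (Ω := Ω) (E := R3) (u1 t)) x) :=
      fun x => Pool.Agent.V11287.DC.outer_eq _
    simp only [e] at ht
    exact ht
  · simp only [if_true, hcmp]
    exact Pool.Agent.V11287.DC.low_trunc hm Fr hν hτ.2 hFH hS hκν hrate hs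
  · have hq3 : q ≠ 3 / 2 := hq.ne'
    have h32 : (3 : ℝ≥0∞) < 2 * q := by
      calc (3 : ℝ≥0∞) = 2 * (3 / 2) := by
            rw [ENNReal.mul_div_cancel (by norm_num) (by norm_num)]
        _ < 2 * q := by
            exact (ENNReal.mul_lt_mul_iff_right (by norm_num) (by norm_num)).2 hq
    have hθ1 : (3 / (2 * q)).toReal < 1 := by
      have h1 : 3 / (2 * q) < 1 := by
        rw [ENNReal.div_lt_iff (Or.inl (by positivity)) (Or.inr (by norm_num)), one_mul]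
        exact h32
      have := (ENNReal.toReal_lt_toReal h1.ne_top ENNReal.one_ne_top).2 h1
      simpa using this
    simp only [hcmp]
    exact Pool.Agent.V11287.DC.low_q hm Fr hν hτ.2 hFH hS hκν hrate hs hq.le rfl hθ1
      (by simp only [if_neg hq3])
  · simp only [if_true, hcmp]
    exact Pool.Agent.V11287.DC.low_typeI hm Fr hν hτ.2 hFH hS hκν hrate hs ha0 ha

end Pool.Agent.Results.MP_fd8964_an.DirectionalCompression
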