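import Pool.Agent.V1183.DL.Main

/-!
# Blow-up for lower-order perturbations of the Navier-Stokes equations with Dirichlet boundary
conditions

For every bounded open `Ω ⊆ ℝ³`, every ball `B = Metric.ball b ρ ⊆ Ω` (maximum norm), all
`ν, δ > 0` and all `s < 1`, `a < 1` with `3 a > 2`, `6 s + 3 a > 7`, there are a linear operator `D`
and a bilinear operator `G` with the properties `LowerO s a δ Ω B D G` (in particular of order
`1 + a < 2` and `s < 1`, with constant `δ`, energy-preserving and local to `B`) such that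
`∂ₜ u + (u · ∇) u + ∇ p + G(u, u) = ν (Δ u - D u)`, `div u = 0` in `Ω`, `u = 0` on `∂Ω`, has a smooth
solution which is supported in `B` and blows up in finite time; it is the only solution that is
smooth up to the boundary with these initial data, and cannot be continued.
-/

open Set

set_option autoImplicit false

namespace Pool.Agent.Results.MP_fd8964_an.DirichletLowerOrder

open H459R3.NS Pool.Agent.V1183.DL

theorem result : ∀ (Ω : Set V) (b : V) (ρ ν δ s a : ℝ), IsOpen Ω → Bornology.IsBounded Ω →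
    0 < ρ → Metric.ball b ρ ⊆ Ω → 0 < ν → 0 < δ → s < 1 → a < 1 → 2 < 3 * a →
    7 < 6 * s + 3 * a →
    ∃ (D : (V → V) → V → V) (G : (V → V) → (V → V) → V → V) (T : ℝ) (u : ℝ → V → V)
      (p : ℝ → V → ℝ), LowerO s a δ Ω (Metric.ball b ρ) D G ∧ 0 < T ∧ DSol ν T Ω D G u p ∧
      (∀ t ∈ Ico 0 T, ∀ x ∉ Metric.ball b ρ, u t x = 0) ∧
      (∀ M : ℝ, ∃ t ∈ Ico 0 T, ∃ x ∈ Ω, M < ‖u t x‖) ∧
      ∀ (T' : ℝ) (v : ℝ → V → V) (q : ℝ → V → ℝ), DSol ν T' Ω D G v q →
        (∀ x ∈ Ω, v 0 x = u 0 x) → T' ≤ T ∧ ∀ t ∈ Ico 0 T', ∀ x ∈ Ω, v t x = u t x :=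
  dl_main

end Pool.Agent.Results.MP_fd8964_an.DirichletLowerOrder
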