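import Pool.Agent.Y303.NF.Pub
import Pool.Agent.W52.TQ.Loc
import Pool.Agent.W503.TQ.Uni

/-!
# Global strong solutions for data with a large discrete rotational symmetry

Bounded open sets `Ω ⊆ ℝ³` which stay away from the third axis and which are invariant under the
rotation by `2π/n` about this axis; admissible data with the same symmetry. If `n` is larger than an
explicit function of the size of the data, then there is a strong solution, on `[0,∞)` if the data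
are bounded on `[0,∞)`. The data are not small and no component of the velocity is assumed to vanish.
The bound for the derivative of the angular part of a field with `n`-fold symmetry has the factor
`1/n`, and the part which does not depend on the angle is estimated as in the axisymmetric case,
in a domain away from the axis.
-/

set_option autoImplicit false

open MeasureTheory Set
open scoped InnerProductSpace ENNReal ContDiff

namespace Pool.Agent.Results.MP_fd8964_an.RotationSymmetry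

open H772R2.NS.Pub Pool.Agent.W795.TQ
open Pool.Agent.Y303.NF (rot axisSq IsInvariant IsInvariantForce)

/-- Let `Ω` be a bounded open set which lies between the cylinders of the radii `ρ` and `R` about
the third axis and is invariant under the rotation by `2π/n`. Let `I` be a set of positive times
(for example `{T}` or `(0,∞)`), let `ν > 0`, let `u₀` and the force `⟨f(t), φ⟩ = (F(t), ∇φ)` be
admissible data on `[0,T]`, `T ∈ I`, which are invariant under this rotation, `g₀ ∈ L²` the initial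
acceleration, and suppose that for all `T ∈ I`
`‖u₀‖² + ν⁻¹ ∫₀ᵀ ‖F‖² ≤ E²`, `‖F‖ ≤ Φ` on `[0,T]`, `17 ‖g₀‖² + ν⁻¹ ∫₀ᵀ ‖F'‖² ≤ B²`, and
`432 R² E² (Φ² + 2 ν E B exp (E² / (π ρ ν²) + 1/2)) ≤ n² ρ² ν⁶`.
Then there is `u` with `u(0) = u₀` which is a strong solution on `[0,T]` for every `T ∈ I`, and every
Leray-Hopf solution on `[0,T]` with the same data is equal to `u`. -/
theorem result :
    ∀ (Ω : Set R3), IsOpen Ω → Bornology.IsBounded Ω →
    ∀ (ρ R : ℝ), 0 < ρ → 0 < R → (∀ x ∈ Ω, ρ ^ 2 ≤ axisSq x ∧ axisSq x ≤ R ^ 2) →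
    ∀ n : ℕ, 0 < n → (∀ x ∈ Ω, rot (2 * Real.pi / n) x ∈ Ω) →
    ∀ ν : ℝ, 0 < ν → ∀ I : Set ℝ, (∀ T ∈ I, 0 < T) →
    ∀ (F F' : ℝ → L2 Ω Mat), (∀ T ∈ I, IsH1 T F F') →
    (∀ T ∈ I, ∀ t ∈ Icc 0 T, IsInvariantForce (2 * Real.pi / n) (F t)) →
    ∀ (u0 g0 : L2 Ω R3) (z0 : L2 Ω Mat), (u0, z0) ∈ H1graph Ω →
    IsInvariant (2 * Real.pi / n) u0 →
    (∀ φ, IsTest Ω φ → rhs ν u0 z0 (F 0) φ = ∫ x in Ω, ⟪g0.fn x, φ x⟫_ℝ) →
    ∀ E Φ B : ℝ, 0 ≤ E → 0 < B →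
    (∀ T ∈ I, ‖u0‖ ^ 2 + (∫ s in (0 : ℝ)..T, ‖F s‖ ^ 2) / ν ≤ E ^ 2) →
    (∀ T ∈ I, ∀ t ∈ Icc 0 T, ‖F t‖ ≤ Φ) →
    (∀ T ∈ I, 17 * ‖g0‖ ^ 2 + (∫ s in (0 : ℝ)..T, ‖F' s‖ ^ 2) / ν ≤ B ^ 2) →
    432 * R ^ 2 * E ^ 2 * (Φ ^ 2 + 2 * ν * E * (B * Real.exp (E ^ 2 / (Real.pi * ρ * ν ^ 2)
      + 1 / 2))) ≤ n ^ 2 * ρ ^ 2 * ν ^ 6 →
    ∃ (u u' : ℝ → L2 Ω R3) (G G' : ℝ → L2 Ω Mat), u 0 = u0 ∧
      ∀ T ∈ I, IsStrong Ω ν T F u u' G G' ∧
        ∀ (w : ℝ → L2 Ω R3) (D : ℝ → L2 Ω Mat), IsLerayHopf Ω ν T F w D → w 0 = u0 →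
          ∀ t ∈ Icc 0 T, w t = u t := by
  intro Ω hΩ hb ρ R hρ hR hsub n hn hrot ν hν I hI F F' hF hFs u0 g0 z0 h0 hu0 hg E Φ B hE0 hB0
    hE hΦ hB hcond
  obtain ⟨u, u', G, G', hu, h⟩ := Pool.Agent.Y303.NF.nf_mid2 (Ω := Ω) Pool.Agent.W52.TQ.proof_loc
    Pool.Agent.W503.TQ.proof_uni hΩ hb hρ hR hsub hn hrot hν hI
    (F := F) (F1 := F') (fun T hT => ⟨(hF T hT).memLp, (hF T hT).prim⟩) hFs
    (u0 := u0) (g0 := g0) (z0 := z0) (mem_pub.mpr h0) hu0
    (fun φ hφ => hg φ ((isTest_iff φ).mpr hφ)) hE0 hB0 hE hΦ hB hcond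
  refine ⟨u, u', G, G', hu, fun T hT => ⟨(h T hT).1, ?_⟩⟩
  intro w D L hw
  exact (h T hT).2 w D L.meas (by
    filter_upwards [L.grad] with t ht
    exact mem_pub.mpr ht) L.gradL2
    (fun φ hφ t ht => L.eqn φ ((isTest_iff φ).mpr hφ) t ht) L.energy hw

end Pool.Agent.Results.MP_fd8964_an.RotationSymmetry
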