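import Pool.Agent.V1183.RA.Fin
import Pool.Agent.W12.TQ.Iter
import Pool.Agent.W347.TQ.Ode
import Pool.Agent.W52.TQ.Univ
import Pool.Agent.W775.TQ.Dtp
import Pool.Agent.W503.TQ.Est1
import Pool.Agent.W790.TQ.Est2
import Pool.Agent.W52.TQ.Loc
import Pool.Agent.W503.TQ.Uni

/-!
# Singularities and the component of the velocity orthogonal to its time derivative

Only the component of `u(t,x)` orthogonal to `∂ₜu(t,x)` matters for the regularity of the solutions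
of the Navier-Stokes equations with zero boundary values: conditions of Prodi-Serrin type, form
bounds, and the square integrability of `u × ∂ₜu`, all with rates.
-/

set_option autoImplicit false

open MeasureTheory Set
open scoped InnerProductSpace ENNReal ContDiff

namespace Pool.Agent.Results.MP_fd8964_an.TransverseVelocity

open H772R2.NS.Pub Pool.Agent.W795.TQ
open Pool.Agent.V1183.RA (crossSq orth)

/-- The Prodi-Serrin exponent `r = 2/(1 - 3/q)`, so that `2/r + 3/q = 1`. -/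
noncomputable def dualExp (q : ℝ≥0∞) : ℝ := 2 / (1 - (3 / q).toReal)

/-- There are absolute constants `κ > 0` and `c(q) > 0` for `3 ≤ q ≤ ∞` with the following
property. Let `u` be a Leray-Hopf solution on `[0,T]` with admissible data in a bounded open set
`Ω`. Then either `u` is a strong solution on `[0,T]`, or there are a first singular time
`τ ∈ (0,T]` and `u' = ∂ₜu`, `G' = ∇∂ₜu` such that `u` is a strong solution on `[0,t]` for every
`t < τ`, and for every `s ∈ [0,τ)`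
1. (form bounds) for `0 < δ ≤ 1` there is `M` such that, whenever `λ ≥ 0` is locally integrable on
   `[s,τ)` and `‖u × ∂ₜu‖² ≤ ((1-δ) ν ‖∇∂ₜu‖)² + λ(t) ‖∂ₜu‖²` for almost every `t ∈ (s,τ)`, one
   has `∫_s^t λ ≥ (3/2) δ ν log (1/(τ-t)) - M` for `t < τ` arbitrarily close to `τ`;
2. (Prodi-Serrin) for `3 < q ≤ ∞`, `r = 2/(1-3/q)` there is `M` such that, whenever `B ≥ 0`, `B^r`
   is locally integrable on `[s,τ)` and the component of `u(t)` orthogonal to `∂ₜu(t)` has at most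
   the norm `B(t)` in `L^q(Ω)` for almost every `t ∈ (s,τ)`, one has
   `∫_s^t B^r ≥ c(q) ν^(r-1) log (1/(τ-t)) - M` for `t < τ` arbitrarily close to `τ`;
3. it is not true that this component has at most the norm `c(3) ν` in `L³(Ω)` for almost every
   `t ∈ (s,τ)`;
4. `‖u × ∂ₜu‖²` is locally integrable on `[s,τ)` and there is `M` such that
   `∫_s^t ‖u × ∂ₜu‖² ≥ κ ν^(7/2) (τ-t)^(-3/2) - M` for `t < τ` arbitrarily close to `τ`. -/
theorem result : ∃ (κ : ℝ) (c : ℝ≥0∞ → ℝ), 0 < κ ∧ (∀ q, 3 ≤ q → 0 < c q) ∧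
    ∀ (Ω : Set R3), IsOpen Ω → Bornology.IsBounded Ω → ∀ (ν T : ℝ), 0 < ν → 0 < T →
    ∀ (F F' : ℝ → L2 Ω Mat), IsH1 T F F' →
    ∀ (u : ℝ → L2 Ω R3) (G : ℝ → L2 Ω Mat), IsLerayHopf Ω ν T F u G →
    ∀ z0 : L2 Ω Mat, (u 0, z0) ∈ H1graph Ω →
    (∃ g : L2 Ω R3, ∀ φ, IsTest Ω φ → rhs ν (u 0) z0 (F 0) φ = ∫ x in Ω, ⟪g.fn x, φ x⟫_ℝ) →
    (∃ u' G1 G', IsStrong Ω ν T F u u' G1 G') ∨
    ∃ τ ∈ Ioc 0 T, ∃ (u' : ℝ → L2 Ω R3) (G1 G' : ℝ → L2 Ω Mat),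
      (∀ t ∈ Ioo 0 τ, IsStrong Ω ν t F u u' G1 G') ∧
      ∀ s ∈ Ico 0 τ,
        (∀ δ : ℝ, 0 < δ → δ ≤ 1 → ∃ M : ℝ, ∀ lam : ℝ → ℝ, (∀ t, 0 ≤ lam t) →
          (∀ t ∈ Ioo s τ, IntegrableOn lam (Ioc s t)) →
          (∀ᵐ t ∂(volume.restrict (Ioo s τ)),
            crossSq (u t) (u' t) ≤ ((1 - δ) * ν * ‖G' t‖) ^ 2 + lam t * ‖u' t‖ ^ 2) →
          ∀ t0 < τ, ∃ t ∈ Ioo t0 τ, s < t ∧
            3 / 2 * δ * ν * Real.log (1 / (τ - t)) - M ≤ ∫ r in s..t, lam r) ∧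
        (∀ q : ℝ≥0∞, 3 < q → ∃ M : ℝ, ∀ B : ℝ → ℝ, (∀ t, 0 ≤ B t) →
          (∀ t ∈ Ioo s τ, IntegrableOn (fun r => B r ^ dualExp q) (Ioc s t)) →
          (∀ᵐ t ∂(volume.restrict (Ioo s τ)),
            eLpNorm (orth (u t) (u' t)) q (volume.restrict Ω) ≤ ENNReal.ofReal (B t)) →
          ∀ t0 < τ, ∃ t ∈ Ioo t0 τ, s < t ∧
            c q * ν ^ (dualExp q - 1) * Real.log (1 / (τ - t)) - M
              ≤ ∫ r in s..t, B r ^ dualExp q) ∧
        (¬ ∀ᵐ t ∂(volume.restrict (Ioo s τ)),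
          eLpNorm (orth (u t) (u' t)) 3 (volume.restrict Ω) ≤ ENNReal.ofReal (c 3 * ν)) ∧
        (∀ t ∈ Ioo s τ, IntegrableOn (fun r => crossSq (u r) (u' r)) (Ioc s t)) ∧
        ∃ M : ℝ, ∀ t0 < τ, ∃ t ∈ Ioo t0 τ, s < t ∧
          κ * ν ^ (7 / 2 : ℝ) * (τ - t) ^ (-(3 / 2) : ℝ) - M
            ≤ ∫ r in s..t, crossSq (u r) (u' r) := by
  obtain ⟨κ, hκ, hmain⟩ := Pool.Agent.V1183.RA.alt_mid Pool.Agent.W12.TQ.proof
    Pool.Agent.W347.TQ.proof_ode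
    Pool.Agent.W775.TQ.proof_dtp Pool.Agent.W503.TQ.proof_est1 Pool.Agent.W790.TQ.proof_est2
    Pool.Agent.W52.TQ.proof_loc Pool.Agent.W503.TQ.proof_uni Pool.Agent.W52.TQ.proof_univ
  have hCS : (0 : ℝ) ≤ (H772R2.NS.CS : ℝ) := NNReal.coe_nonneg _
  refine ⟨κ ^ 2, fun q => if q = 3 then 1 / (2 * ((H772R2.NS.CS : ℝ) + 1)) else
    3 / 4 / (((((H772R2.NS.CS : ℝ) + 1) ^ (3 / q).toReal) ^ (2 / (1 - (3 / q).toReal))
      * 2 ^ (2 / (1 - (3 / q).toReal) - 1))), by positivity, ?_, ?_⟩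
  · intro q hq
    simp only
    split_ifs
    · positivity
    · positivity
  intro Ω hΩ hb ν T hν hT F F' hF u G L z0 h0 hg
  obtain ⟨g, hg'⟩ := hg
  rcases hmain Ω hΩ hb ν T hν hT F F' hF.memLp hF.prim u G L.meas
    (by
      filter_upwards [L.grad] with t ht
      exact mem_pub.mpr ht) L.gradL2
    (fun φ hφ t ht => L.eqn φ ((isTest_iff φ).mpr hφ) t ht) L.energy z0 (mem_pub.mpr h0)
    ⟨g, fun φ hφ => hg' φ ((isTest_iff φ).mpr hφ)⟩ with h1 | ⟨τ, hτ, u1, y, y1, hS, hrate⟩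
  · exact Or.inl h1
  refine Or.inr ⟨τ, hτ, u1, y, y1, fun t ht => strong_of_str hΩ ht.1 (hS t ht) (fun _ _ => rfl), ?_⟩
  intro s hs
  obtain ⟨C, Fr⟩ := H772R2.NSR.exists_frame hΩ hb
  have hm := Pool.Agent.V1183.RA.ms (Ω := Ω) hΩ
  have hκν : 0 < κ * ν ^ (5 / 4 : ℝ) := by positivity
  have hFH : FH T F F' := ⟨hF.memLp, hF.prim⟩
  refine ⟨fun δ hδ hδ1 => ?_, fun q hq => ?_, ?_, ?_, ?_⟩
  · exact Pool.Agent.V1183.RA.low_form hm Fr hν hτ.2 hFH hS hκν hrate hs hδ hδ1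
  · have hq3 : q ≠ 3 := hq.ne'
    have hθ1 : (3 / q).toReal < 1 := by
      have h1 : 3 / q < 1 := by
        rw [ENNReal.div_lt_iff (Or.inl (by positivity)) (Or.inr (by norm_num)), one_mul]
        exact hq
      have := (ENNReal.toReal_lt_toReal h1.ne_top ENNReal.one_ne_top).2 h1
      simpa using this
    exact Pool.Agent.V1183.RA.low_q hm Fr hν hτ.2 hFH hS hκν hrate hs hq.le rfl hθ1
      (by simp only [if_neg hq3])
  · simp only [if_true]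
    exact Pool.Agent.V1183.RA.low_3 hm Fr hν hτ.2 hFH hS hκν hrate hs
  · exact (Pool.Agent.V1183.RA.low_cross hm Fr hν hτ.2 hFH hS hκν hrate hs).1
  · obtain ⟨M, hM⟩ := (Pool.Agent.V1183.RA.low_cross hm Fr hν hτ.2 hFH hS hκν hrate hs).2
    refine ⟨M, fun t0 ht0 => ?_⟩
    obtain ⟨t, ht, hst, h⟩ := hM t0 ht0
    refine ⟨t, ht, hst, ?_⟩
    have e : ν * (κ * ν ^ (5 / 4 : ℝ)) ^ 2 = κ ^ 2 * ν ^ (7 / 2 : ℝ) := by
      have e1 : (ν ^ (5 / 4 : ℝ)) ^ 2 = ν ^ (5 / 2 : ℝ) := by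
        rw [← Real.rpow_natCast, ← Real.rpow_mul hν.le]
        norm_num
      have e2 : ν ^ (7 / 2 : ℝ) = ν * ν ^ (5 / 2 : ℝ) := by
        rw [← Real.rpow_one_add' hν.le (by norm_num)]
        norm_num
      rw [mul_pow, e1, e2]
      ring
    rw [← e]
    exact h

end Pool.Agent.Results.MP_fd8964_an.TransverseVelocity
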